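import Pool.Agent.Helper78.JT.Goals3
import Pool.Agent.Helper61.DT.GAP

/-!
# JT-CKF: counting for circuits
-/

namespace Pool.Agent.Helper94.JT

open Pool.Agent.Helper81.CC Pool.Agent.Helper51.ZP Pool.Agent.Helper78.DT Pool.Agent.Helper78.AO
open Pool.Agent.Helper78.JT
open scoped Classical

/-- The new approximation. -/
def rdk (L f : ℕ) : ℕ := (2 * f + L ^ 2) / (2 * L ^ 2)

theorem rdk_spec {c L f : ℕ} {p p' : ℝ} (hL : 2 ≤ L)
    (h : |(f : ℝ) / (L : ℝ) ^ (c + 2) - p| ≤ 1 / (L : ℝ) ^ (c + 2))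
    (h' : |p - p'| ≤ 1 / (4 * (L : ℝ) ^ c)) :
    |(rdk L f : ℝ) / (L : ℝ) ^ c - p'| ≤ 1 / (L : ℝ) ^ c := by
  have hl0 : (2 : ℝ) ≤ L := by exact_mod_cast hL
  have hLp : (0 : ℝ) < L := by linarith
  have hX : (0 : ℝ) < (L : ℝ) ^ c := by positivity
  set X : ℝ := (L : ℝ) ^ c with hXdef
  have hY : (0 : ℝ) < (L : ℝ) ^ 2 := by positivity
  set Y : ℝ := (L : ℝ) ^ 2 with hYdef
  have hXY : (L : ℝ) ^ (c + 2) = X * Y := by rw [hXdef, hYdef, pow_add]
  have hYn : 0 < L ^ 2 := by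
    have : 0 < L := by omega
    positivity
  have hr1 : (rdk L f : ℝ) * (2 * Y) ≤ 2 * f + Y := by
    have : rdk L f * (2 * L ^ 2) ≤ 2 * f + L ^ 2 := Nat.div_mul_le_self _ _
    have h2 : ((rdk L f * (2 * L ^ 2) : ℕ) : ℝ) ≤ ((2 * f + L ^ 2 : ℕ) : ℝ) := by
      exact_mod_cast this
    push_cast at h2
    exact h2
  have hr2 : 2 * f + Y < ((rdk L f : ℝ) + 1) * (2 * Y) := by
    have : 2 * f + L ^ 2 < (rdk L f + 1) * (2 * L ^ 2) := by
      have := Nat.lt_div_mul_add (a := 2 * f + L ^ 2) (b := 2 * L ^ 2) (by positivity)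
      unfold rdk
      rw [add_mul, one_mul]
      exact this
    have h2 : ((2 * f + L ^ 2 : ℕ) : ℝ) < (((rdk L f + 1) * (2 * L ^ 2) : ℕ) : ℝ) := by
      exact_mod_cast this
    push_cast at h2
    exact h2
  have h6 : |(rdk L f : ℝ) / X - (f : ℝ) / (X * Y)| ≤ 1 / (2 * X) := by
    have e1 : (rdk L f : ℝ) / X - (f : ℝ) / (X * Y) =
        ((rdk L f : ℝ) * (2 * Y) - 2 * f) / (2 * (X * Y)) := by
      field_simp
    have e2 : (1 : ℝ) / (2 * X) = Y / (2 * (X * Y)) := by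
      field_simp
    rw [e1, e2, abs_div, abs_of_pos (show (0 : ℝ) < 2 * (X * Y) by positivity)]
    refine div_le_div_of_nonneg_right ?_ (by positivity)
    rw [abs_le]
    constructor <;> linarith
  have hXY4 : 4 * X ≤ X * Y := by
    have h2 : (4 : ℝ) ≤ Y := by rw [hYdef]; nlinarith
    nlinarith
  have h5 : |(f : ℝ) / (X * Y) - p| ≤ 1 / (4 * X) := by
    rw [hXY] at h
    exact h.trans (one_div_le_one_div_of_le (by positivity) hXY4)
  calc |(rdk L f : ℝ) / X - p'|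
      = |((rdk L f : ℝ) / X - (f : ℝ) / (X * Y)) + (((f : ℝ) / (X * Y) - p) + (p - p'))| := by
        ring_nf
    _ ≤ |(rdk L f : ℝ) / X - (f : ℝ) / (X * Y)| + |((f : ℝ) / (X * Y) - p) + (p - p')| :=
        abs_add_le _ _
    _ ≤ |(rdk L f : ℝ) / X - (f : ℝ) / (X * Y)| + (|(f : ℝ) / (X * Y) - p| + |p - p'|) := by
        gcongr
        exact abs_add_le _ _
    _ ≤ 1 / (2 * X) + (1 / (4 * X) + 1 / (4 * X)) :=
        add_le_add h6 (add_le_add h5 h')
    _ = 1 / X := by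
        field_simp
        norm_num

theorem err_bound (c k N : ℕ) :
    (N : ℝ) * ((1 - 1 / 2 ^ k) ^ (2 ^ k * ((c + 4) * lg N)) +
      3 ^ (k * (Nat.log 2 N + 1)) * (2 / 3 : ℝ) ^ ((2 * c + 8 + 4 * k) * lg N)) ≤
        1 / (4 * (lg N : ℝ) ^ c) := by
  have hm : (0 : ℝ) < 2 ^ k := by positivity
  have hm1 : (1 : ℝ) ≤ 2 ^ k := one_le_pow₀ (by norm_num)
  have hbase : (1 - 1 / (2 : ℝ) ^ k) ^ (2 ^ k) ≤ 1 / 2 := by
    have h1 : 1 - 1 / (2 : ℝ) ^ k ≤ Real.exp (-(1 / 2 ^ k)) := by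
      have := Real.add_one_le_exp (-(1 / (2 : ℝ) ^ k))
      linarith
    have h0 : 0 ≤ 1 - 1 / (2 : ℝ) ^ k := by
      have : 1 / (2 : ℝ) ^ k ≤ 1 := by
        rw [div_le_one hm]; exact hm1
      linarith
    calc (1 - 1 / (2 : ℝ) ^ k) ^ (2 ^ k) ≤ (Real.exp (-(1 / 2 ^ k))) ^ (2 ^ k) :=
          pow_le_pow_left₀ h0 h1 _
      _ = Real.exp (-1) := by
          rw [← Real.exp_nat_mul]
          congr 1
          push_cast
          field_simp
      _ ≤ 1 / 2 := by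
          rw [Real.exp_neg, one_div]
          apply inv_anti₀ (by norm_num)
          have := Real.add_one_le_exp (1 : ℝ)
          linarith
  have hb0 : 0 ≤ (1 - 1 / (2 : ℝ) ^ k) ^ (2 ^ k) := by
    apply pow_nonneg
    have : 1 / (2 : ℝ) ^ k ≤ 1 := by
      rw [div_le_one hm]; exact hm1
    linarith
  have h2 : (1 - 1 / (2 : ℝ) ^ k) ^ (2 ^ k * ((c + 4) * lg N)) ≤ (1 / 2) ^ ((c + 4) * lg N) := by
    rw [pow_mul]
    exact pow_le_pow_left₀ hb0 hbase _
  have h2' : (3 : ℝ) ^ (k * (Nat.log 2 N + 1)) * (2 / 3 : ℝ) ^ ((2 * c + 8 + 4 * k) * lg N) ≤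
      (1 / 2) ^ ((c + 4) * lg N) := by
    have e1 : (3 : ℝ) ^ (k * (Nat.log 2 N + 1)) ≤ 4 ^ (k * lg N) := by
      calc (3 : ℝ) ^ (k * (Nat.log 2 N + 1)) ≤ 4 ^ (k * (Nat.log 2 N + 1)) :=
            pow_le_pow_left₀ (by norm_num) (by norm_num) _
        _ ≤ 4 ^ (k * lg N) := by
            apply pow_le_pow_right₀ (by norm_num)
            apply Nat.mul_le_mul_left
            unfold lg
            omega
    have e2 : (2 / 3 : ℝ) ^ ((2 * c + 8 + 4 * k) * lg N) ≤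
        (1 / 2) ^ ((c + 4 + 2 * k) * lg N) := by
      have e3 : (2 * c + 8 + 4 * k) * lg N = 2 * ((c + 4 + 2 * k) * lg N) := by ring
      rw [e3, pow_mul]
      exact pow_le_pow_left₀ (by norm_num) (by norm_num) _
    calc (3 : ℝ) ^ (k * (Nat.log 2 N + 1)) * (2 / 3 : ℝ) ^ ((2 * c + 8 + 4 * k) * lg N)
        ≤ 4 ^ (k * lg N) * (1 / 2) ^ ((c + 4 + 2 * k) * lg N) :=
          mul_le_mul e1 e2 (by positivity) (by positivity)
      _ = (1 / 2) ^ ((c + 4) * lg N) := by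
          have e4 : (c + 4 + 2 * k) * lg N = (c + 4) * lg N + 2 * (k * lg N) := by ring
          have e5 : (4 : ℝ) ^ (k * lg N) * (1 / 2) ^ (2 * (k * lg N)) = 1 := by
            rw [pow_mul (1 / 2 : ℝ) 2, ← mul_pow]
            norm_num
          rw [e4, pow_add]
          calc (4 : ℝ) ^ (k * lg N) * ((1 / 2) ^ ((c + 4) * lg N) * (1 / 2) ^ (2 * (k * lg N)))
              = (1 / 2) ^ ((c + 4) * lg N) *
                ((4 : ℝ) ^ (k * lg N) * (1 / 2) ^ (2 * (k * lg N))) := by ring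
            _ = (1 / 2) ^ ((c + 4) * lg N) := by rw [e5, mul_one]
  have hN : N < 2 ^ lg N := by
    unfold lg
    calc N < 2 ^ (Nat.log 2 N + 1) := Nat.lt_pow_succ_log_self (by norm_num) N
      _ ≤ 2 ^ (Nat.log 2 N + 2) := Nat.pow_le_pow_right (by norm_num) (by omega)
  have hNr : (N : ℝ) ≤ 2 ^ lg N := by exact_mod_cast hN.le
  have hL2 : 2 ≤ lg N := by unfold lg; omega
  have hLr : (lg N : ℝ) ≤ 2 ^ lg N := by exact_mod_cast (Nat.lt_two_pow_self).le
  have hL0 : (0 : ℝ) < lg N := by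
    have : (2 : ℝ) ≤ lg N := by exact_mod_cast hL2
    linarith
  have h3 : (8 : ℝ) * (lg N : ℝ) ^ c ≤ 2 ^ ((c + 3) * lg N) := by
    have h4 : (8 : ℝ) ≤ 2 ^ (3 * lg N) := by
      calc (8 : ℝ) = 2 ^ 3 := by norm_num
        _ ≤ 2 ^ (3 * lg N) := pow_le_pow_right₀ (by norm_num) (by omega)
    have h5 : (lg N : ℝ) ^ c ≤ 2 ^ (c * lg N) := by
      calc (lg N : ℝ) ^ c ≤ (2 ^ lg N) ^ c := pow_le_pow_left₀ hL0.le hLr _
        _ = 2 ^ (c * lg N) := by rw [← pow_mul, mul_comm]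
    calc (8 : ℝ) * (lg N : ℝ) ^ c ≤ 2 ^ (3 * lg N) * 2 ^ (c * lg N) :=
          mul_le_mul h4 h5 (by positivity) (by positivity)
      _ = 2 ^ ((c + 3) * lg N) := by
          rw [← pow_add]; congr 1; ring
  have hp : (0 : ℝ) < (lg N : ℝ) ^ c := by positivity
  calc (N : ℝ) * ((1 - 1 / 2 ^ k) ^ (2 ^ k * ((c + 4) * lg N)) +
      3 ^ (k * (Nat.log 2 N + 1)) * (2 / 3 : ℝ) ^ ((2 * c + 8 + 4 * k) * lg N))
      ≤ 2 ^ lg N * ((1 / 2) ^ ((c + 4) * lg N) + (1 / 2) ^ ((c + 4) * lg N)) := by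
        apply mul_le_mul hNr (add_le_add h2 h2') _ (by positivity)
        apply add_nonneg
        · rw [pow_mul]
          exact pow_nonneg hb0 _
        · positivity
    _ = 2 / 2 ^ ((c + 3) * lg N) := by
        have e1 : (c + 4) * lg N = (c + 3) * lg N + lg N := by ring
        rw [e1, pow_add, one_div_pow, one_div_pow]
        field_simp
        norm_num
    _ ≤ 1 / (4 * (lg N : ℝ) ^ c) := by
        rw [div_le_div_iff₀ (by positivity) (by positivity)]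
        linarith

/-- **CKF.** -/
theorem ckf (hGej : GejStmt) (hCkl : CklStmt) (hCke : CkeStmt) (hCkp : CkpStmt) : CkfStmt := by
  intro c k e
  obtain ⟨hP, hsz, hz1⟩ := hCkp
  have hlg : PolyTime (fun z : Circuit => lg (size z)) :=
    PolyTime.add (Pool.Agent.Helper61.DT.PT_log hsz) (PolyTime.const 2)
  have hs : PolyTime (fun z : Circuit => 2 ^ k * ((c + 4) * lg (size z))) :=
    PolyTime.mul (PolyTime.const (2 ^ k)) (PolyTime.mul (PolyTime.const (c + 4)) hlg)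
  have hs' : PolyTime (fun z : Circuit => (2 * c + 8 + 4 * k) * lg (size z)) :=
    PolyTime.mul (PolyTime.const (2 * c + 8 + 4 * k)) hlg
  obtain ⟨f, hf, h⟩ := hGej Circuit
    (fun z K t h b => outK z k (2 ^ k * ((c + 4) * lg (size z)))
      ((2 * c + 8 + 4 * k) * lg (size z)) K t h b)
    (fun z => z.1) (fun z => size z) (k * (2 ^ k * (c + 4)) + (2 * c + 8 + 4 * k)) e
    (hP k _ _ hs hs') hz1 hsz
    (fun z => by unfold size; omega) (c + 2)
  refine ⟨fun z => rdk (lg (size z)) (f z), PolyTime.computable ?_, fun z hz hr => ?_⟩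
  · unfold rdk
    exact PolyTime.div (PolyTime.add (PolyTime.mul (PolyTime.const 2) hf) (PolyTime.pow hlg 2))
      (PolyTime.mul (PolyTime.const 2) (PolyTime.pow hlg 2))
  · have hl : ListsJ z.1 ((k * (2 ^ k * (c + 4)) + (2 * c + 8 + 4 * k)) * lg (size z))
        z.2.1.length
        (fun K t h b => outK z k (2 ^ k * ((c + 4) * lg (size z)))
          ((2 * c + 8 + 4 * k) * lg (size z)) K t h b) := by
      have h1 := hCkl z k (2 ^ k * ((c + 4) * lg (size z))) ((2 * c + 8 + 4 * k) * lg (size z))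
      have e1 : k * (2 ^ k * ((c + 4) * lg (size z))) + (2 * c + 8 + 4 * k) * lg (size z) =
          (k * (2 ^ k * (c + 4)) + (2 * c + 8 + 4 * k)) * lg (size z) := by
        ring
      rw [e1] at h1
      exact h1
    have h2 := h z z.2.1.length hl hr
    have h3 := hCke z k (2 ^ k * ((c + 4) * lg (size z))) ((2 * c + 8 + 4 * k) * lg (size z)) hz
    have h4 := h3.trans (err_bound c k (size z))
    exact rdk_spec (by unfold lg; omega) h2 h4

end Pool.Agent.Helper94.JT
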